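import Pool.Agent.W845.GL.Stm

/-! GL-T3: the densities converge. -/

set_option autoImplicit false

namespace Pool.Agent.W699.GL

open Filter Finset
open scoped Topology
open Pool.Agent.W845.GL

theorem t3 : S_T0 → S_T1 → S_T2 → S_T3 := by
  intro h0 h1 h2 k F
  obtain ⟨ha, hb, -, -, -, -, hpos, hsb, hsa, -⟩ := h0
  obtain ⟨C, hC⟩ := h2 k F
  have hs : Summable (fun j => tW (ff j) F - 1) := by
    apply Summable.of_norm_bounded ((hsb.add hsa).mul_left C)
    intro j
    rw [Real.norm_eq_abs]
    exact hC j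
  have hm : Multipliable (fun j => 1 + (tW (ff j) F - 1)) := multipliable_one_add_of_summable hs.norm
  have ht := hm.hasProd.tendsto_prod_nat
  have he : (fun i => tW (KK i) F) = fun i => ∏ j ∈ range i, (1 + (tW (ff j) F - 1)) := by
    funext i
    rw [h1 i k F, Fin.prod_univ_eq_prod_range (fun j => tW (ff j) F) i]
    refine prod_congr rfl fun j _ => ?_
    ring
  have ht' : Tendsto (fun i => tW (KK i) F) atTop (𝓝 (∏' j, (1 + (tW (ff j) F - 1)))) := by
    rw [he]; exact ht
  have hc : cc F = ∏' j, (1 + (tW (ff j) F - 1)) := ht'.limUnder_eq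
  rw [hc]
  exact ⟨ge_of_tendsto' ht' fun i => hpos i k F, ht'⟩

end Pool.Agent.W699.GL
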